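import Pool.Agent.Run7.h10.QS.J7
import Pool.Agent.Run7.h10.QS.K2

/-!
The period conjecture for divisor classes: one fibre decides, in bounded height.

Let `f : X → S` be a smooth projective family over `ℚ̄`, over an open subset `S` of affine space over which the relative de
Rham cohomology of degree two is trivial, and let `U` be an open subset of `S(ℂ)`, `β_j` a flat basis of the integral cohomology
`Λ` (modulo torsion) over `U`, `ω_i` a basis of the relative de Rham cohomology, and `2 π i ι(β_j) = ∑_i P_ij ρ(ω_i)`. The matrix
`P` is flat for the Gauss-Manin connection, `∂P / ∂z_x = A_x P`. The classes `γ = ∑ v_j β_j` of `Λ` with `2 π i ι(γ)` in `ρ(V)` for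
the fibre over the algebraic point `s` are the vectors `v` of integers for which the entries of `P(s) v` are algebraic
(`IsGr`).

1. At almost all algebraic points `s` all pairs `(α, γ)` of `H²_Gr(X_s)` of bounded height (the bound tends to infinity) are
   restrictions of global ones: the entries of `P(z) v` are algebraic functions, and `γ` is the second component of an element
   of `H²_Gr(X_z)` for **every** algebraic point `z` of `U`.
2. Hence, if Q1 is true for **one** fibre of the family over an algebraic point `s₀` of `U`, then at almost all algebraic points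
   `s` all elements of `H²_Gr(X_s)` of bounded height come from line bundles. Here it is used that a flat class `γ` with algebraic
   `P(z) v` which is algebraic at one point of `U` is algebraic at all points (`hdef`): after a finite étale base change it is
   invariant under the monodromy, so it is of type `(1, 1)` everywhere by Deligne's theorem of the fixed part, and algebraic by
   the theorem of Lefschetz.
-/

open NumberField

namespace Pool.Agent.Results.MP_c3fc99_ag.OneFibreDecides

open Pool.Agent.Run7.h10.QS (Few Points)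

section
variable {X : Type} {ι : Type} [Fintype ι]

/-- The matrix `P` is flat for a connection over `ℚ̄`: for every coordinate `x` there are a nonzero polynomial `q` and a matrix
`A` of polynomials with algebraic coefficients such that `q ∂P / ∂z_x = A P` on `U`. -/
def IsFlat [Fintype X] [DecidableEq X] (U : Set (X → ℂ)) (P : (X → ℂ) → ι → ι → ℂ) : Prop :=
  ∀ x : X, ∃ (q : MvPolynomial X (algebraicClosure ℚ ℂ)) (A : ι → ι → MvPolynomial X (algebraicClosure ℚ ℂ)),
    q ≠ 0 ∧ ∀ i j, ∀ z ∈ U, MvPolynomial.aeval z q * fderiv ℂ (fun z => P z i j) z (Pi.single x 1) =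
      ∑ k, MvPolynomial.aeval z (A i k) * P z k j

/-- The class with the coordinates `v` is the second component of an element of `H²_Gr` for the point `s`: the entries of
`P(s) v` are algebraic numbers. -/
def IsGr (P : (X → ℂ) → ι → ι → ℂ) (s : X → ℂ) (v : ι → ℤ) : Prop :=
  ∀ i, IsAlgebraic ℚ (∑ j, P s i j * (v j : ℂ))

/-- The entries of `P(z) v` are algebraic functions: each satisfies a polynomial equation, not identically zero, with
coefficients in the ring of the polynomials in `z` with algebraic coefficients. -/
def IsAlgSection (U : Set (X → ℂ)) (P : (X → ℂ) → ι → ι → ℂ) (v : ι → ℤ) : Prop :=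
  ∀ i, ∃ p : Polynomial (MvPolynomial X (algebraicClosure ℚ ℂ)), p ≠ 0 ∧
    ∀ z ∈ U, p.eval₂ (MvPolynomial.aeval z : _ →ₐ[algebraicClosure ℚ ℂ] ℂ).toRingHom (∑ j, P z i j * (v j : ℂ)) = 0

/-- The class with the coordinates `v` is global: the entries of `P(z) v` are algebraic functions, and algebraic numbers at all
points `z` of `U` with algebraic coordinates. -/
def IsGlobal (U : Set (X → ℂ)) (P : (X → ℂ) → ι → ι → ℂ) (v : ι → ℤ) : Prop :=
  IsAlgSection U P v ∧ ∀ z ∈ U, (∀ x, IsAlgebraic ℚ (z x)) → IsGr P z v

/-- There is an element `(α, γ)` of `H²_Gr` at the point `s`, `γ` with the coordinates `v` and `α` with coordinates in `K`, of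
height at most `T ^ k` (for some natural number `d ≥ 1` the integers `d v_j` and the conjugates of the coordinates of `d α`,
which are integers of `K`, are at most `T ^ k`). -/
def HasClass (K : Type) [Field K] [NumberField K] (P : (X → ℂ) → ι → ι → ℂ) (io : K →+* ℂ) (k : ℕ) (T : ℝ)
    (s : X → ℂ) (v : ι → ℤ) : Prop :=
  ∃ (d : ℕ) (w : ι → 𝓞 K), 0 < d ∧ (∀ j, |(d * v j : ℝ)| ≤ T ^ k) ∧ (∀ j (φ : K →+* ℂ), ‖φ (w j : K)‖ ≤ T ^ k) ∧
    ∀ i, d * ∑ j, P s i j * (v j : ℂ) = io (w i : K)

/-- The points `s` over `K` with an element of `H²_Gr` of height at most `T ^ k` which does not have the property `G`. -/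
def Exceptional [Fintype X] (K : Type) [Field K] [NumberField K] (U : Set (X → ℂ)) (P : (X → ℂ) → ι → ι → ℂ)
    (G : (X → ℂ) → (ι → ℤ) → Prop) (io : K →+* ℂ) (k : ℕ) (T : ℝ) : Set (X → K) :=
  {s | s ∈ Points K U io k T ∧ ∃ v : ι → ℤ, HasClass K P io k T (fun x => io (s x)) v ∧ ¬G (fun x => io (s x)) v}

end

/-- Let `U` be a nonempty open connected subset of `ℂ ^ X` and `P` an analytic matrix on `U` which is flat for a connection over
`ℚ̄`. (1) There are few algebraic points `s` of `U` (`Few`: there is `ω → ∞` such that for all large `T` and all number fields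
`K` of degree at most `ω T`, embedded in `ℂ`, the points `s` of `U` over `K` of height at most `T`, of norm at most `ω T` and
distance at least `1 / ω T` from the complement of `U`, with the property lie on at most `T ^ (1 / ω T)` hypersurfaces of degree
at most `T ^ (1 / ω T)`, and there are at most `T ^ (1 / ω T) * N ^ (|X| - 1)` of them, `N` being the number of elements of `K` of
height at most `T`) with an element of `H²_Gr` of height at most `T ^ ω T` which is not global. (2) Let `Alg s` be the set of the
algebraic classes at the point `s`, let global classes which are algebraic at one point be algebraic at all points, and let all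
elements of `H²_Gr` be algebraic at **one** point `s₀` of `U` with algebraic coordinates. Then there are few algebraic points with
an element of `H²_Gr` of height at most `T ^ ω T` which is not algebraic. -/
theorem result {X : Type} [Fintype X] [DecidableEq X] [Nonempty X] {ι : Type} [Fintype ι] [DecidableEq ι]
    {U : Set (X → ℂ)} (hUo : IsOpen U) (hU : IsPreconnected U) (hne : U.Nonempty) {P : (X → ℂ) → ι → ι → ℂ}
    (hP : ∀ i j, AnalyticOnNhd ℂ (fun z => P z i j) U) (hflat : IsFlat U P) :
    (Few fun K _ _ io k T => Exceptional K U P (fun _ => IsGlobal U P) io k T) ∧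
    ∀ (Alg : (X → ℂ) → (ι → ℤ) → Prop) (s₀ : X → ℂ), s₀ ∈ U → (∀ x, IsAlgebraic ℚ (s₀ x)) →
      (∀ v, IsGlobal U P v → Alg s₀ v → ∀ s ∈ U, Alg s v) → (∀ v, IsGr P s₀ v → Alg s₀ v) →
      Few fun K _ _ io k T => Exceptional K U P Alg io k T := by
  have hev : ∀ (z : X → ℂ), (MvPolynomial.aeval z : _ →ₐ[algebraicClosure ℚ ℂ] ℂ).toRingHom =
      Pool.Agent.Run7.h10.QS.evz z := by
    intro z
    apply MvPolynomial.ringHom_ext
    · intro a
      rw [Pool.Agent.Run7.h10.QS.evz_C]
      exact MvPolynomial.aeval_C z a
    · intro i
      rw [Pool.Agent.Run7.h10.QS.evz_X]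
      exact MvPolynomial.aeval_X z i
  have hev' : ∀ (z : X → ℂ) (a : MvPolynomial X (algebraicClosure ℚ ℂ)), MvPolynomial.aeval z a =
      Pool.Agent.Run7.h10.QS.evz z a := fun z a => RingHom.congr_fun (hev z) a
  choose q B hq hB using hflat
  have h1 : Few fun K _ _ io k T => Exceptional K U P (fun _ => IsGlobal U P) io k T := by
    refine Pool.Agent.Run7.h10.QS.few_mono (Pool.Agent.Run7.h10.QS.drb_few hU hUo hne hP q hq B ?_) ?_
    · intro x i j z hz
      have h1 := hB x i j z hz
      simp only [hev'] at h1
      exact h1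
    · rintro K _ _ io k T s ⟨h1, v, ⟨d, w, hd, hv, hw, hPv⟩, hg⟩
      have hd0 : (d : ℂ) ≠ 0 := by exact_mod_cast hd.ne'
      have hval : ∀ j, io (((d * v j : ℤ) : 𝓞 K) : K) = (d : ℂ) * (v j : ℂ) := by
        intro j
        have e1 : ((((d * v j : ℤ) : 𝓞 K) : 𝓞 K) : K) = ((d * v j : ℤ) : K) := by
          exact map_intCast (algebraMap (𝓞 K) K) _
        rw [e1, map_intCast]
        push_cast
        ring
      have hsum : ∀ z i, ∑ j, P z i j * io (((d * v j : ℤ) : 𝓞 K) : K) = d * ∑ j, P z i j * (v j : ℂ) := by
        intro z i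
        rw [Finset.mul_sum]
        exact Finset.sum_congr rfl fun j _ => by rw [hval]; ring
      refine ⟨h1, fun j => ((d * v j : ℤ) : 𝓞 K), w, ?_, hw, ?_, fun h6 => hg ?_⟩
      · intro j φ
        have e1 : ((((d * v j : ℤ) : 𝓞 K) : 𝓞 K) : K) = ((d * v j : ℤ) : K) := by
          exact map_intCast (algebraMap (𝓞 K) K) _
        rw [e1, map_intCast, Complex.norm_intCast]
        have := hv j
        push_cast
        exact this
      · intro i
        rw [hsum]
        exact hPv i
      · have hcont : ∀ i, ContinuousOn (fun z => ∑ j, P z i j * io (((d * v j : ℤ) : 𝓞 K) : K)) U := fun i =>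
          Pool.Agent.Run7.h10.QS.sum_an hP _ i
        refine ⟨fun i => ?_, fun z hz ha i => ?_⟩
        · obtain ⟨p, hp, hp0⟩ := h6 i
          refine ⟨p.comp (Polynomial.C (d : MvPolynomial X (algebraicClosure ℚ ℂ)) * Polynomial.X), ?_, fun z hz => ?_⟩
          · obtain ⟨m, hm⟩ : ∃ m, p.coeff m ≠ 0 := by
              by_contra hcon
              push Not at hcon
              exact hp (Polynomial.ext fun m => by rw [hcon m, Polynomial.coeff_zero])
            intro h7
            have h8 := congrArg (fun r => Polynomial.coeff r m) h7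
            simp only [Polynomial.comp_C_mul_X_coeff, Polynomial.coeff_zero] at h8
            have hdp : (d : MvPolynomial X (algebraicClosure ℚ ℂ)) ≠ 0 := by exact_mod_cast hd.ne'
            exact (mul_ne_zero hm (pow_ne_zero m hdp)) h8
          · rw [Polynomial.eval₂_comp, Polynomial.eval₂_mul, Polynomial.eval₂_C, Polynomial.eval₂_X, map_natCast, hev]
            have h8 : Polynomial.eval₂ (Pool.Agent.Run7.h10.QS.evz z)
                (∑ j, P z i j * io (((d * v j : ℤ) : 𝓞 K) : K)) p = 0 := hp0 z hz
            rw [hsum] at h8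
            exact h8
        · have h7 := Pool.Agent.Run7.h10.QS.algFun_value hUo (hcont i) (h6 i) z hz ha
          rw [hsum] at h7
          have h8 : IsAlgebraic ℚ ((d : ℂ)⁻¹) := (isAlgebraic_natCast d).inv
          have h9 := h8.mul h7
          rwa [← mul_assoc, inv_mul_cancel₀ hd0, one_mul] at h9
  refine ⟨h1, fun Alg s₀ hs₀ hs₀a hdef hone => ?_⟩
  refine Pool.Agent.Run7.h10.QS.few_mono' h1 ?_
  rintro K _ _ io k T hk s ⟨hs, v, hv, hA⟩
  refine ⟨hs, v, hv, fun hglob => hA ?_⟩
  exact hdef v hglob (hone v (hglob.2 s₀ hs₀ hs₀a)) _ (Pool.Agent.Y890.MV.innerM_sub U hk hs.2)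

end Pool.Agent.Results.MP_c3fc99_ag.OneFibreDecides
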